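import Pool.Agent.Helper42.LS.Defs

open Filter Topology

namespace Pool.Agent.Helper42.LS

/-- distance to the nearest integer, for a number close to an integer -/
theorem pi_nd_eq (t : ℝ) (m : ℤ) (s : ℝ) (hs0 : 0 ≤ s) (hs1 : s ≤ 1 / 2)
    (h : t = m + s ∨ t = m - s) : nd t = s := by
  rcases h with h | h
  · have hf : Int.fract t = s := by
      rw [h, Int.fract_intCast_add, Int.fract_eq_self.mpr ⟨hs0, by linarith⟩]
    unfold nd
    rw [hf]
    rw [min_eq_left (by linarith)]
  · by_cases hz : s = 0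
    · subst hz
      rw [sub_zero] at h
      rw [h]
      unfold nd
      simp
    · have hpos : 0 < s := lt_of_le_of_ne hs0 (Ne.symm hz)
      have hf : Int.fract t = 1 - s := by
        have e : t = ((m - 1 : ℤ) : ℝ) + (1 - s) := by
          rw [h]; push_cast; ring
        rw [e, Int.fract_intCast_add, Int.fract_eq_self.mpr ⟨by linarith, by linarith⟩]
      unfold nd
      rw [hf]
      rw [min_eq_right (by linarith)]
      ring

theorem pi_nd_spec (t : ℝ) : 0 ≤ nd t ∧ nd t ≤ 1 / 2 ∧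
    ∃ m : ℤ, t = m + nd t ∨ t = m - nd t := by
  have h0 := Int.fract_nonneg t
  have h1 := Int.fract_lt_one t
  have hfl := Int.floor_add_fract t
  unfold nd
  rcases le_total (Int.fract t) (1 - Int.fract t) with h | h
  · rw [min_eq_left h]
    refine ⟨h0, by linarith, ⌊t⌋, Or.inl hfl.symm⟩
  · rw [min_eq_right h]
    refine ⟨by linarith, by linarith, ⌊t⌋ + 1, Or.inr ?_⟩
    push_cast
    linarith

theorem pi_nd_double (t : ℝ) : nd (2 * t) = min (2 * nd t) (1 - 2 * nd t) := by
  obtain ⟨h0, h1, m, hm⟩ := pi_nd_spec t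
  set s := nd t
  rcases le_total (2 * s) (1 - 2 * s) with h | h
  · rw [min_eq_left h]
    apply pi_nd_eq (2 * t) (2 * m) (2 * s) (by linarith) (by linarith)
    rcases hm with hm | hm
    · left; push_cast; rw [hm]; ring
    · right; push_cast; rw [hm]; ring
  · rw [min_eq_right h]
    rcases hm with hm | hm
    · apply pi_nd_eq (2 * t) (2 * m + 1) (1 - 2 * s) (by linarith) (by linarith)
      right; push_cast; rw [hm]; ring
    · apply pi_nd_eq (2 * t) (2 * m - 1) (1 - 2 * s) (by linarith) (by linarith)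
      left; push_cast; rw [hm]; ring

/-- the pair of values at `s + t`, `s - t` -/
theorem pi_nd_pair (s t : ℝ) :
    (nd (s - t) = |nd s - nd t| ∧ nd (s + t) = min (nd s + nd t) (1 - (nd s + nd t))) ∨
    (nd (s + t) = |nd s - nd t| ∧ nd (s - t) = min (nd s + nd t) (1 - (nd s + nd t))) := by
  obtain ⟨a0, a1, m, hm⟩ := pi_nd_spec s
  obtain ⟨b0, b1, n, hn⟩ := pi_nd_spec t
  set a := nd s
  set b := nd t
  have habs0 : 0 ≤ |a - b| := abs_nonneg _
  have habs1 : |a - b| ≤ 1 / 2 := by rw [abs_le]; constructor <;> linarith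
  have key1 : ∀ u : ℝ, ∀ q : ℤ, (u = q + (a - b) ∨ u = q - (a - b)) → nd u = |a - b| := by
    intro u q hu
    apply pi_nd_eq u q _ habs0 habs1
    rcases abs_cases (a - b) with ⟨h, _⟩ | ⟨h, _⟩
    · rw [h]; exact hu
    · rw [h]
      rcases hu with hu | hu
      · right; rw [hu]; ring
      · left; rw [hu]; ring
  have key2 : ∀ u : ℝ, ∀ q : ℤ, (u = q + (a + b) ∨ u = q - (a + b)) →
      nd u = min (a + b) (1 - (a + b)) := by
    intro u q hu
    rcases le_total (a + b) (1 - (a + b)) with h | h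
    · rw [min_eq_left h]
      exact pi_nd_eq u q _ (by linarith) (by linarith) hu
    · rw [min_eq_right h]
      rcases hu with hu | hu
      · apply pi_nd_eq u (q + 1) _ (by linarith) (by linarith)
        right; push_cast; rw [hu]; ring
      · apply pi_nd_eq u (q - 1) _ (by linarith) (by linarith)
        left; push_cast; rw [hu]; ring
  rcases hm with hm | hm <;> rcases hn with hn | hn
  · left
    refine ⟨key1 _ (m - n) (Or.inl ?_), key2 _ (m + n) (Or.inl ?_)⟩
    · push_cast; rw [hm, hn]; ring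
    · push_cast; rw [hm, hn]; ring
  · right
    refine ⟨key1 _ (m + n) (Or.inl ?_), key2 _ (m - n) (Or.inl ?_)⟩
    · push_cast; rw [hm, hn]; ring
    · push_cast; rw [hm, hn]; ring
  · right
    refine ⟨key1 _ (m + n) (Or.inr ?_), key2 _ (m - n) (Or.inr ?_)⟩
    · push_cast; rw [hm, hn]; ring
    · push_cast; rw [hm, hn]; ring
  · left
    refine ⟨key1 _ (m - n) (Or.inr ?_), key2 _ (m + n) (Or.inr ?_)⟩
    · push_cast; rw [hm, hn]; ring
    · push_cast; rw [hm, hn]; ring

theorem st_PI : ST_PI := by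
  intro N hN f hf h2 hrec
  have hNpos : (0 : ℝ) < N := by exact_mod_cast hN
  have hNne : (N : ℝ) ≠ 0 := ne_of_gt hNpos
  set g : ℝ := f 1 / N with hg
  have hf1 : f 1 = N * g := by rw [hg]; field_simp
  have hg0 : 0 ≤ g := div_nonneg (hf 1 le_rfl).1 hNpos.le
  have hg1 : g ≤ 1 / 2 := by
    have := (hf 1 le_rfl).2
    rw [hg, div_le_iff₀ hNpos]
    linarith
  have hnd1 : nd g = g := pi_nd_eq g 0 g hg0 hg1 (Or.inl (by simp))
  have hscale : ∀ a b : ℝ, |(N : ℝ) * a - N * b| = N * |a - b| := by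
    intro a b
    rw [← mul_sub, abs_mul, abs_of_pos hNpos]
  have hscale2 : ∀ a b : ℝ, min ((N : ℝ) * a + N * b) (N - (N * a + N * b)) =
      N * min (a + b) (1 - (a + b)) := by
    intro a b
    rw [mul_min_of_nonneg _ _ hNpos.le]
    congr 1 <;> ring
  have main : ∀ k : ℕ, 1 ≤ k → f k = N * nd (k * g) ∧ f (k + 1) = N * nd ((k + 1 : ℕ) * g) := by
    intro k hk
    induction k, hk using Nat.le_induction with
    | base =>
      refine ⟨by simp [hnd1, hf1], ?_⟩
      have e : (((1 + 1 : ℕ) : ℝ) * g) = 2 * g := by norm_num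
      rw [e, pi_nd_double, hnd1]
      change f 2 = _
      rw [h2, hf1, mul_min_of_nonneg _ _ hNpos.le]
      congr 1 <;> ring
    | succ k hk ih =>
      refine ⟨ih.2, ?_⟩
      have hr := hrec (k + 1) (by omega)
      have e1 : k + 1 - 1 = k := by omega
      rw [e1] at hr
      have hp := pi_nd_pair (((k + 1 : ℕ) : ℝ) * g) g
      have es : ((k + 1 : ℕ) : ℝ) * g - g = k * g := by push_cast; ring
      have ea : ((k + 1 : ℕ) : ℝ) * g + g = ((k + 1 + 1 : ℕ) : ℝ) * g := by push_cast; ring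
      rw [es, ea, hnd1] at hp
      rw [ih.1, ih.2, hf1, hscale, hscale2] at hr
      set a := nd (((k + 1 : ℕ) : ℝ) * g)
      set c := nd ((k : ℝ) * g)
      set u := nd (((k + 1 + 1 : ℕ) : ℝ) * g)
      rcases hr with ⟨hr1, hr2⟩ | ⟨hr1, hr2⟩
      · have hc : c = |a - g| := mul_left_cancel₀ hNne hr1
        rcases hp with ⟨hp1, hp2⟩ | ⟨hp1, hp2⟩
        · rw [hr2, hp2]
        · rw [hr2, hp1, ← hc, hp2]
      · have hc : c = min (a + g) (1 - (a + g)) := mul_left_cancel₀ hNne hr2
        rcases hp with ⟨hp1, hp2⟩ | ⟨hp1, hp2⟩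
        · rw [hr1, hp2, ← hc, hp1]
        · rw [hr1, hp1]
  intro k hk
  exact (main k hk).1

end Pool.Agent.Helper42.LS
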