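import Pool.Agent.Helper42.LS.Defs

open Filter Topology

namespace Pool.Agent.Helper42.LS

theorem rb2_b2_int (t : ℝ) (m : ℤ) : B2 (t + m) = B2 t := by
  unfold B2
  rw [Int.fract_add_intCast]

theorem rb2_core (s t : ℝ) : |B2 s - B2 t| ≤ |s - t| := by
  have hs0 := Int.fract_nonneg s
  have hs1 := Int.fract_lt_one s
  have ht0 := Int.fract_nonneg t
  have ht1 := Int.fract_lt_one t
  set a := Int.fract s with ha
  set b := Int.fract t with hb
  have hsa : s = ⌊s⌋ + a := by rw [ha]; exact (Int.floor_add_fract s).symm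
  have htb : t = ⌊t⌋ + b := by rw [hb]; exact (Int.floor_add_fract t).symm
  have hdiff : B2 s - B2 t = (a - b) * (a + b - 1) := by
    unfold B2
    rw [← ha, ← hb]
    ring
  rw [hdiff]
  obtain ⟨n, hn⟩ : ∃ n : ℤ, n = ⌊s⌋ - ⌊t⌋ := ⟨_, rfl⟩
  have hst : s - t = n + (a - b) := by
    rw [hn]; push_cast; linarith
  rw [hst]
  rcases lt_trichotomy n 0 with h | h | h
  · have h1 : (n : ℝ) ≤ -1 := by exact_mod_cast (by omega : n ≤ -1)
    have hneg : (n : ℝ) + (a - b) ≤ 0 := by linarith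
    rw [abs_of_nonpos hneg]
    rw [abs_le]
    constructor
    · nlinarith
    · nlinarith
  · rw [h]
    simp only [Int.cast_zero, zero_add]
    rw [abs_mul]
    have : |a + b - 1| ≤ 1 := by rw [abs_le]; constructor <;> linarith
    calc |a - b| * |a + b - 1| ≤ |a - b| * 1 := by
          apply mul_le_mul_of_nonneg_left this (abs_nonneg _)
      _ = |a - b| := mul_one _
  · have h1 : (1 : ℝ) ≤ n := by exact_mod_cast (by omega : 1 ≤ n)
    have hpos : 0 ≤ (n : ℝ) + (a - b) := by linarith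
    rw [abs_of_nonneg hpos]
    rw [abs_le]
    constructor
    · nlinarith
    · nlinarith

theorem st_RB2 : ST_RB2 := by
  intro s t m
  have h := rb2_core s (t + m)
  rw [rb2_b2_int] at h
  have e : s - (t + m) = s - t - m := by ring
  rwa [e] at h

theorem rc_mul (F : ℕ → ℝ) (C : ℝ)
    (hD : ∀ k l : ℕ, 1 ≤ k → 1 ≤ l → |F (k + l) - F k - F l| ≤ C) (k : ℕ) (hk : 1 ≤ k) (n : ℕ) :
    |F ((n + 1) * k) - (n + 1) * F k| ≤ n * C := by
  induction n with
  | zero => simp
  | succ n ih =>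
    have h1 : 1 ≤ (n + 1) * k := Nat.one_le_iff_ne_zero.mpr (by positivity)
    have h2 := hD ((n + 1) * k) k h1 hk
    have h3 : (n + 1 + 1) * k = (n + 1) * k + k := by ring
    rw [h3]
    rw [abs_le] at *
    push_cast at *
    constructor
    · linarith [ih.1, ih.2, h2.1, h2.2]
    · linarith [ih.1, ih.2, h2.1, h2.2]

theorem rc_hyers (F : ℕ → ℝ) (C : ℝ) (hC : 0 ≤ C)
    (hD : ∀ k l : ℕ, 1 ≤ k → 1 ≤ l → |F (k + l) - F k - F l| ≤ C) :
    ∃ φ : ℝ, ∀ k : ℕ, 1 ≤ k → |F k - k * φ| ≤ C := by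
  have hle : ∀ k l : ℕ, 1 ≤ k → 1 ≤ l → (F k - C) / k ≤ (F l + C) / l := by
    intro k l hk hl
    have hk' : (0 : ℝ) < k := by exact_mod_cast hk
    have hl' : (0 : ℝ) < l := by exact_mod_cast hl
    obtain ⟨k0, rfl⟩ : ∃ k0, k = k0 + 1 := ⟨k - 1, by omega⟩
    obtain ⟨l0, rfl⟩ : ∃ l0, l = l0 + 1 := ⟨l - 1, by omega⟩
    have h1 := rc_mul F C hD (l0 + 1) hl k0
    have h2 := rc_mul F C hD (k0 + 1) hk l0
    rw [mul_comm (l0 + 1) (k0 + 1)] at h2
    rw [abs_le] at h1 h2
    rw [div_le_div_iff₀ hk' hl']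
    push_cast
    nlinarith [h1.1, h1.2, h2.1, h2.2]
  refine ⟨sSup {r | ∃ k : ℕ, 1 ≤ k ∧ r = (F k - C) / k}, ?_⟩
  intro k hk
  have hk' : (0 : ℝ) < k := by exact_mod_cast hk
  have hb : BddAbove {r | ∃ k : ℕ, 1 ≤ k ∧ r = (F k - C) / k} := by
    refine ⟨(F 1 + C) / (1 : ℕ), ?_⟩
    rintro r ⟨k, hk, rfl⟩
    exact hle k 1 hk le_rfl
  have h1 : (F k - C) / k ≤ sSup {r | ∃ k : ℕ, 1 ≤ k ∧ r = (F k - C) / k} :=
    le_csSup hb ⟨k, hk, rfl⟩
  have h2 : sSup {r | ∃ k : ℕ, 1 ≤ k ∧ r = (F k - C) / k} ≤ (F k + C) / k := by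
    refine csSup_le ⟨(F 1 - C) / ((1 : ℕ) : ℝ), 1, le_rfl, rfl⟩ ?_
    rintro r ⟨l, hl, rfl⟩
    exact hle l k hl hk
  set φ := sSup {r | ∃ k : ℕ, 1 ≤ k ∧ r = (F k - C) / k}
  rw [div_le_iff₀ hk'] at h1
  rw [le_div_iff₀ hk'] at h2
  rw [abs_le]
  constructor <;> linarith

theorem st_RC : ST_RC := by
  intro W C hW hC T hT hadd
  by_cases hWC : W ≤ 4 * C
  · refine ⟨0, fun k hk => ⟨0, ?_⟩⟩
    have := hT k hk
    simp only [mul_zero, sub_zero, Int.cast_zero, zero_mul]
    linarith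
  · push Not at hWC
    have hch : ∀ k : ℕ, ∃ m : ℤ, 1 ≤ k → |T (k + 1) - T k - T 1 - m * W| ≤ C := by
      intro k
      by_cases hk : 1 ≤ k
      · obtain ⟨m, hm⟩ := hadd k 1 hk le_rfl
        exact ⟨m, fun _ => hm⟩
      · exact ⟨0, fun h => absurd h hk⟩
    choose m hm using hch
    -- `G k = ∑_{1 ≤ j < k} m j`
    let G : ℕ → ℤ := fun k => ∑ j ∈ Finset.Ico 1 k, m j
    have hG1 : G 1 = 0 := by simp [G]
    have hG : ∀ k, 1 ≤ k → G (k + 1) = G k + m k := by
      intro k hk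
      simp only [G]
      rw [Finset.sum_Ico_succ_top hk]
    let F : ℕ → ℝ := fun k => T k - G k * W
    have hF1 : F 1 = T 1 := by simp only [F]; rw [hG1]; simp
    have hFd : ∀ k, 1 ≤ k → |F (k + 1) - F k - F 1| ≤ C := by
      intro k hk
      have := hm k hk
      have e : F (k + 1) - F k - F 1 = T (k + 1) - T k - T 1 - m k * W := by
        rw [hF1]
        simp only [F]
        rw [hG k hk]
        push_cast
        ring
      rwa [e]
    have hFm : ∀ k l : ℕ, 1 ≤ k → 1 ≤ l → ∃ n : ℤ, |F (k + l) - F k - F l - n * W| ≤ C := by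
      intro k l hk hl
      obtain ⟨n, hn⟩ := hadd k l hk hl
      refine ⟨n - G (k + l) + G k + G l, ?_⟩
      have e : F (k + l) - F k - F l - ((n - G (k + l) + G k + G l : ℤ) : ℝ) * W =
          T (k + l) - T k - T l - n * W := by
        simp only [F]
        push_cast
        ring
      rwa [e]
    have hD : ∀ l : ℕ, 1 ≤ l → ∀ k : ℕ, 1 ≤ k → |F (k + l) - F k - F l| ≤ C := by
      intro l hl
      induction l, hl using Nat.le_induction with
      | base => intro k hk; exact hFd k hk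
      | succ l hl ih =>
        intro k hk
        have h1 := ih k hk
        have h2 := hFd (k + l) (by omega)
        have h3 := hFd l hl
        obtain ⟨n, hn⟩ := hFm k (l + 1) hk (by omega)
        have e : k + (l + 1) = k + l + 1 := by ring
        rw [e] at hn ⊢
        rw [abs_le] at h1 h2 h3 hn
        have hn0 : n = 0 := by
          by_contra hne
          have : (1 : ℝ) ≤ |(n : ℝ)| := by
            exact_mod_cast Int.one_le_abs hne
          have h4 : |(n : ℝ) * W| ≤ 4 * C := by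
            rw [abs_le]
            constructor <;> linarith [h1.1, h1.2, h2.1, h2.2, h3.1, h3.2, hn.1, hn.2]
          rw [abs_mul, abs_of_pos hW] at h4
          nlinarith
        rw [hn0] at hn
        simp only [Int.cast_zero, zero_mul, sub_zero] at hn
        rw [abs_le]
        exact hn
    obtain ⟨φ, hφ⟩ := rc_hyers F C hC (fun k l hk hl => hD l hl k hk)
    refine ⟨φ, fun k hk => ⟨G k, ?_⟩⟩
    have h1 := hφ k hk
    have e : T k - k * φ - G k * W = F k - k * φ := by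
      simp only [F]; ring
    rw [e]
    linarith

end Pool.Agent.Helper42.LS
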